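import Pool.Agent.helper55.VN.SpecD

/-!
# Project VN, row QD8 (final row I8N)
-/

set_option autoImplicit false

open scoped MatrixGroups ContDiff Topology UpperHalfPlane ComplexConjugate ENNReal
open UpperHalfPlane MeasureTheory Filter Set

namespace Pool.Agent.VN

open Pool.Agent.RS Pool.Agent.VQ
open Pool.Agent.RPQ (CEig mean VV IsOp)

theorem QD8_proof (hQDV : QDV_stmt) (hEDZ : EDZ_stmt) : QD8_stmt := by
  intro Γ ch k B hΓ hch hk
  obtain ⟨C, hC, h⟩ := hQDV k hk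
  refine ⟨C, hC, fun A hh hA hTF => ?_⟩
  obtain ⟨L, hL⟩ := hTF.lip
  obtain ⟨R0, hR0, h1⟩ := h ch B A (max L 0) hch hA (le_max_right _ _)
  refine ⟨1 / 400, R0, by norm_num, hR0, ?_⟩
  intro R D F f F' μ φ hR hD hF hE
  rw [(hEDZ Γ F R hΓ hF (hR0.trans hR)).1, abs_sub_comm]
  exact h1 R Γ F D f F' μ φ hh hR hΓ hF hD hE hTF.inv hTF.bd (fun z w =>
    (hL z w).trans (mul_le_mul_of_nonneg_right (le_max_left _ _) dist_nonneg))

end Pool.Agent.VN
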